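import Pool.Agent.H598.ZC.Main
import Pool.Agent.H598.ZC.Aniso

/-!
# Zero-cycles of degree one on diagonal hypersurfaces over `F(t)`

Let `F` be a finite field and `K = F(t)`. The hypersurface `a_1 x_1 ^ k + ... + a_s x_s ^ k = 0`
in the projective space of dimension `s - 1` over `K` is smooth if all the `a_i` are non-zero and
the characteristic does not divide `k`. A point of the hypersurface over a finite extension `L` of
`K` is a non-zero tuple of elements of `L` satisfying the equation; as a zero-cycle over `K` it has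
the degree `[L : K]`.
-/

namespace Pool.Agent.Results.MP_1ad228_nt.DiagonalZeroCycles

open Module

/-- The hypersurface `∑ a i * x i ^ k = 0` over `K` has a point with coordinates in the extension
field `L`. -/
def HasPoint {K : Type*} [Field K] (k : ℕ) {s : ℕ} (a : Fin s → K) (L : Type*) [Field L]
    [Algebra K L] : Prop :=
  ∃ x : Fin s → L, x ≠ 0 ∧ ∑ i, algebraMap K L (a i) * x i ^ k = 0

/-- A point of the hypersurface over a finite extension of `K`. -/
structure Pt {K : Type*} [Field K] (k : ℕ) {s : ℕ} (a : Fin s → K) where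
  /-- The extension field. -/
  L : Type
  /-- It is a field. -/
  [field : Field L]
  /-- It contains `K`. -/
  [algebra : Algebra K L]
  /-- It is finite over `K`. -/
  finite : FiniteDimensional K L
  /-- It has a point. -/
  point : HasPoint k a L

attribute [instance] Pt.field Pt.algebra

/-- The degree `[L : K]` of a point. -/
noncomputable def Pt.deg {K : Type*} [Field K] {k : ℕ} {s : ℕ} {a : Fin s → K} (P : Pt k a) : ℕ :=
  finrank K P.L

/-- The hypersurface has a zero-cycle of degree one: a formal sum `∑ n_P P` of points `P` over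
finite extensions of `K` with integral coefficients and `∑ n_P deg P = 1`. -/
def HasZeroCycleOne {K : Type*} [Field K] (k : ℕ) {s : ℕ} (a : Fin s → K) : Prop :=
  ∃ z : List (ℤ × Pt k a), (z.map (fun c => c.1 * (c.2.deg : ℤ))).sum = 1

/-- Let `k ≥ 2` and let `F` be ANY finite field of characteristic larger than `k`.

(1) Every diagonal hypersurface of degree `k` in the projective space of dimension `s - 1 ≥ 2k`
over `F(t)` has a zero-cycle of degree one.

(2) More precisely, let `r ≥ k 2 ^ (k + 2)`. Then there is a point over `E(t)`, where `E` is the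
extension of degree `r` of `F`; the field `E(t)` has degree `r` over `F(t)`.

(3) Rational points need not exist: if `F` has `k + 1` elements, the hypersurface of degree `k` in
the projective space of dimension `k ^ 2 - 1` with the coefficients `t ^ j`, `0 ≤ j < k`, each taken
`k` times, has no point over `F(t)`. -/
theorem result (k : ℕ) (hk : 2 ≤ k) (F : Type*) [Field F] [Fintype F] (hchar : k < ringChar F) :
    (∀ s : ℕ, 2 * k + 1 ≤ s → ∀ a : Fin s → RatFunc F, HasZeroCycleOne k a) ∧
    (∀ s : ℕ, 2 * k + 1 ≤ s → ∀ a : Fin s → RatFunc F, ∀ r : ℕ, k * 2 ^ (k + 2) ≤ r →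
      ∃ (E : Type) (_ : Field E) (_ : Algebra F E) (_ : Algebra (RatFunc F) (RatFunc E)),
        finrank F E = r ∧ finrank (RatFunc F) (RatFunc E) = r ∧
        algebraMap (RatFunc F) (RatFunc E) RatFunc.X = RatFunc.X ∧
        (∀ c : F, algebraMap (RatFunc F) (RatFunc E) (RatFunc.C c)
          = RatFunc.C (algebraMap F E c)) ∧
        HasPoint k a (RatFunc E)) ∧
    (Fintype.card F = k + 1 → ∀ x : Fin (k * k) → RatFunc F,
      ∑ i, RatFunc.X ^ ((finProdFinEquiv.symm i).1 : ℕ) * x i ^ k = 0 → x = 0) := by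
  have h2 : ∀ s : ℕ, 2 * k + 1 ≤ s → ∀ a : Fin s → RatFunc F, ∀ r : ℕ, k * 2 ^ (k + 2) ≤ r →
      ∃ (E : Type) (_ : Field E) (_ : Algebra F E) (_ : Algebra (RatFunc F) (RatFunc E)),
        finrank F E = r ∧ finrank (RatFunc F) (RatFunc E) = r ∧
        algebraMap (RatFunc F) (RatFunc E) RatFunc.X = RatFunc.X ∧
        (∀ c : F, algebraMap (RatFunc F) (RatFunc E) (RatFunc.C c)
          = RatFunc.C (algebraMap F E c)) ∧
        HasPoint k a (RatFunc E) := by
    intro s hs a r hr
    have hr1 : 1 ≤ r := by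
      have : 0 < k * 2 ^ (k + 2) := by positivity
      omega
    obtain ⟨E, hE, hA, hfd, hE2⟩ := Pool.Agent.H598.ZC.exists_ext F hr1
    refine ⟨E, hE, hA, Pool.Agent.H598.ZC.algE F E, hE2, ?_, ?_, ?_, ?_⟩
    · rw [← hE2]
      exact Pool.Agent.H598.ZC.finrank_algE F E
    · exact Pool.Agent.H598.ZC.algE_X F E
    · exact Pool.Agent.H598.ZC.algE_C F E
    · exact Pool.Agent.H598.ZC.point_ext hk hchar hs E (by rw [hE2]; exact hr) _
  refine ⟨?_, h2, ?_⟩
  · intro s hs a
    set r := k * 2 ^ (k + 2) with hr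
    have hr0 : 0 < r := by positivity
    obtain ⟨E₁, hE₁, hA₁, hB₁, -, hd₁, -, -, hp₁⟩ := h2 s hs a r le_rfl
    obtain ⟨E₂, hE₂, hA₂, hB₂, -, hd₂, -, -, hp₂⟩ := h2 s hs a (r + 1) (Nat.le_succ r)
    let P₁ : Pt k a := ⟨RatFunc E₁, Module.finite_of_finrank_pos (by rw [hd₁]; exact hr0), hp₁⟩
    let P₂ : Pt k a := ⟨RatFunc E₂, Module.finite_of_finrank_pos (by rw [hd₂]; omega), hp₂⟩
    refine ⟨[((1 : ℤ), P₂), ((-1 : ℤ), P₁)], ?_⟩
    have e1 : P₁.deg = r := hd₁
    have e2 : P₂.deg = r + 1 := hd₂
    simp only [List.map_cons, List.map_nil, List.sum_cons, List.sum_nil]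
    rw [e1, e2]
    push_cast
    ring
  · intro hF x hx
    exact Pool.Agent.H598.ZC.no_zero (by omega)
      (fun c hc => Pool.Agent.H598.ZC.small_field (by omega) hF hchar c hc) x hx

end Pool.Agent.Results.MP_1ad228_nt.DiagonalZeroCycles
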