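import Pool.Agent.H437.NF.Global

/-!
# Zero-cycles on varieties defined by products of norms from cyclic fields

Let `ℓ` be a prime number and let `(χ, ψ)` be an admissible pair of characters of order `ℓ` modulo
the primes `p`, `q`.  The characters `χ`, `χ^j ψ` cut out `ℓ + 1` cyclic fields
`K_j = ℚ(θ_j)` of degree `ℓ` in `ℚ(ζ_{pq})`; let `P_j` be the minimal polynomial of `θ_j`.  Let `k` be
a number field and let `F_j` be any polynomials in any set of variables `x` with coefficients in
`k ⊗ K_j = k[X]/(P_j)`.  For `a ∈ k^*` let `V` be the variety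

  `a w^ℓ = ∏_j N_j(F_j(x))`, `w ≠ 0`,

where `N_j` is the norm from `K_j`.  Its dimension, its geometry and the polynomials `F_j` are
arbitrary.  Let `A_i` be the class of the cyclic algebra `(N_i(F_i(x)), χ)`, `i` the index of
`χ^{-m} ψ`, `m ≠ 0`.

* The classes are unramified: for every valuation ring `O ⊇ k` of an extension `K` of `k` (for
  instance of the function field of `V`) and every point of `V` over `K` the value `N_i(F_i(x))` is a
  unit times an `ℓ`-th power, or the residue field of `O` contains the field of `χ`.  So the residues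
  vanish and `A_i` comes from `Br(X)` for every smooth projective model `X` of (a component of) `V`.
* On zero-cycles over the completion `L_v` of a number field `L ⊇ k` the class is the degree times a
  constant.  So the sum of the local invariants of a family of local zero-cycles of degree `d` is
  `d [L : k]` times the invariant of the norm of `a`.
* If this invariant is not zero for some `m`, if `ℓ` does not divide `[L : k]` and `d` is prime to
  `ℓ`, then no family of local zero-cycles of degree `d` is orthogonal to the classes `A_i`, and all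
  zero-cycles over `L` have a degree divisible by `ℓ`.
* If the polynomials become `x_0 - θ_j` for some variable `x_0` if the other variables are zero, then
  `V` has points over all completions of all `L ⊇ k`.
-/

set_option autoImplicit false

open Polynomial

namespace Pool.Agent.Results.MP_1ad228_nt.NormProductZeroCycles

open Pool.Agent.H437.NF
open Pool.Agent.Results.MP_308fa9_nt.SuperellipticBrauerSets

universe u

/-- The residue field of the local ring `O ⊇ k` contains a root of the polynomial `P`. -/
def ResidueRoot (k : Type u) [Field k] [CharZero k] (O : Type u) [CommRing O] [IsLocalRing O]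
    [Algebra k O] (P : ℚ[X]) : Prop :=
  ∃ y : IsLocalRing.ResidueField O,
    eval₂ (((IsLocalRing.residue O).comp (algebraMap k O)).comp (algebraMap ℚ k)) y P = 0

section statements

variable {ℓ p q : ℕ} [Fact p.Prime] [Fact q.Prime]
  (θ : Option (ZMod ℓ) → CyclotomicField (p * q) ℚ) {k : Type u} [Field k] [NumberField k] (a : k)
  {σ : Type} (F : Option (ZMod ℓ) → MvPolynomial σ k[X]) [NeZero ℓ]

/-- The points of `V` over the extension `E` of `k`, where `V` is the variety `w ≠ 0`,
`a w^ℓ = ∏_j N_j(F_j(x))`. -/
abbrev Points {E : Type u} [Field E] (ι : k →+* E) : Type u :=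
  Point ℓ a (fun j => minpoly ℚ (θ j)) F ι

/-- The zero-cycles of `V` over the extension `M` of `k`. -/
abbrev Cycles {M : Type u} [Field M] (ι : k →+* M) : Type (u + 1) :=
  ZeroCycle ℓ a (fun j => minpoly ℚ (θ j)) F ι

/-- For every valuation ring `O ⊇ k` with field of fractions `K` and every point of `V` over `K`, all
values `N_i(F_i(x))` are products of a unit of `O` and an `ℓ`-th power, or the residue field of `O`
contains a root of `P_none`, a generator of the field of `χ`. -/
def Unramified : Prop :=
  ∀ (O K : Type u) [CommRing O] [IsDomain O] [ValuationRing O] [Field K] [Algebra O K]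
    [IsFractionRing O K] [Algebra k O] [Algebra k K] [IsScalarTower k O K]
    (z : Points θ a F (algebraMap k K)),
    (∀ i, ∃ (u : Oˣ) (c : K), z.value i = algebraMap O K u * c ^ ℓ) ∨
      ResidueRoot k O (minpoly ℚ (θ none))

variable (L : Type u) [Field L] [NumberField L] [Algebra k L]

/-- The local invariant of `A_i`, `i` the index of `χ^{-m} ψ`, at a zero-cycle over the completion
`L_v` is the degree times `v(N a)` times the weight of the prime number below `v`. -/
def LocalFormula (χ : (ZMod p)ˣ →* Multiplicative (ZMod ℓ))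
    (ψ : (ZMod q)ˣ →* Multiplicative (ZMod ℓ)) : Prop :=
  ∀ (v : FinitePlace L) (z : Cycles θ a F ((embedding v).comp (algebraMap k L))) (m : ZMod ℓ),
    m ≠ 0 → ZeroCycle.localTerm χ v (some (-m)) z = ((ZeroCycle.degree z : ℤ) : ZMod ℓ) *
      ((((normTo v.ideal (embedding v (algebraMap k L a))).valuation : ℤ) : ZMod ℓ) *
        weight χ ψ m v.prime)

/-- The families of zero-cycles of degree `d` over all completions of `L` at finite places. -/
def Family (d : ℤ) : Type (u + 1) :=
  {z : ∀ v : FinitePlace L, Cycles θ a F ((embedding v).comp (algebraMap k L)) //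
    ∀ v, ZeroCycle.degree (z v) = d}

variable {θ a F L} in
/-- The sum of the local invariants of `A_i` at a family of local zero-cycles. -/
noncomputable def Family.pairing (χ : (ZMod p)ˣ →* Multiplicative (ZMod ℓ)) {d : ℤ}
    (z : Family θ a F L d) (i : Option (ZMod ℓ)) : ZMod ℓ :=
  ∑ᶠ v, ZeroCycle.localTerm χ v i (z.1 v)

/-- For a family of local zero-cycles of degree `d` only finitely many local invariants are not zero
and their sum is `d [L : k]` times the invariant of `N(a)`. -/
def FamilyFormula (χ : (ZMod p)ˣ →* Multiplicative (ZMod ℓ))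
    (ψ : (ZMod q)ˣ →* Multiplicative (ZMod ℓ)) : Prop :=
  ∀ (d : ℤ) (z : Family θ a F L d) (m : ZMod ℓ), m ≠ 0 →
    {v | ZeroCycle.localTerm χ v (some (-m)) (z.1 v) ≠ 0}.Finite ∧
    z.pairing χ (some (-m)) = d * (Module.finrank k L * invariant χ ψ m (Algebra.norm ℚ a))

/-- No family of local zero-cycles of a degree prime to `ℓ` is orthogonal to all `A_i`, and `ℓ`
divides the degrees of all zero-cycles of `V` over `L`. -/
def NoCycles (χ : (ZMod p)ˣ →* Multiplicative (ZMod ℓ)) : Prop :=
  (∀ d : ℤ, ¬ (ℓ : ℤ) ∣ d →
    ¬ ∃ z : Family θ a F L d, ∀ m : ZMod ℓ, m ≠ 0 → z.pairing χ (some (-m)) = 0) ∧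
  ∀ z : Cycles θ a F (algebraMap k L), (ℓ : ℤ) ∣ ZeroCycle.degree z

/-- `V` has points over all completions of `L`. -/
def LocallySoluble : Prop :=
  (∀ v : FinitePlace L, Nonempty (Points θ a F ((embedding v).comp (algebraMap k L)))) ∧
  ∀ v : MaximalSpectrum (RealAlgebra L),
    Nonempty (Points θ a F ((realEmbedding v).comp (algebraMap k L)))

/-- The statements over the finite extension `L` of `k`. -/
def Over (χ : (ZMod p)ˣ →* Multiplicative (ZMod ℓ))
    (ψ : (ZMod q)ˣ →* Multiplicative (ZMod ℓ)) : Prop :=
  Reciprocity χ L ∧ LocalFormula θ a F L χ ψ ∧ FamilyFormula θ a F L χ ψ ∧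
    (Obstructed χ ψ a → ¬ ℓ ∣ Module.finrank k L → NoCycles θ a F L χ) ∧
    (HasSlice F → LocallySoluble θ a F L)

end statements

section existence

/-- For every prime `ℓ` there are admissible pairs of characters modulo arbitrarily large primes. -/
def PairsExist : Prop :=
  ∀ (ℓ : ℕ) [Fact ℓ.Prime] (B : ℕ), ∃ (p q : ℕ) (_ : Fact p.Prime) (_ : Fact q.Prime)
    (χ : (ZMod p)ˣ →* Multiplicative (ZMod ℓ)) (ψ : (ZMod q)ˣ →* Multiplicative (ZMod ℓ)),
    B < p ∧ B < q ∧ Admissible χ ψ

variable {ℓ p q : ℕ} [Fact p.Prime] [Fact q.Prime] (χ : (ZMod p)ˣ →* Multiplicative (ZMod ℓ))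
  (ψ : (ZMod q)ˣ →* Multiplicative (ZMod ℓ))

/-- The element `θ_i` generates the field of the character with index `i`. -/
def Generators (θ : Option (ZMod ℓ) → CyclotomicField (p * q) ℚ) : Prop :=
  ∀ i, IsGenerator χ ψ (coefficients i).1 (coefficients i).2 (θ i)

/-- The natural numbers that are not obstructed over `k` have the density `ℓ^{-(ℓ-1)}`. -/
def Density (k : Type u) [Field k] [NumberField k] : Prop :=
  Filter.Tendsto (fun N : ℕ =>
    (Nat.card {b : ℕ // 1 ≤ b ∧ b ≤ N ∧ ¬ Obstructed χ ψ (b : k)} : ℝ) / (N : ℝ))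
    Filter.atTop (nhds ((ℓ : ℝ) ^ (ℓ - 1))⁻¹)

end existence

/-- Let `(χ, ψ)` be admissible, `θ_j` generators of the `ℓ + 1` cyclic fields of the characters `χ`,
`χ^j ψ`, `P_j` their minimal polynomials, `k` a number field, `a ∈ k^*`, `F_j` polynomials with
coefficients in `k[X]`, in the variables `x_i`, `i ∈ σ`, and `V` the variety
`a w^ℓ = ∏_j N_j(F_j(x))`, `w ≠ 0`.

1. For every valuation ring `O ⊇ k` with field of fractions `K` and every point of `V` over `K`, all
   values `N_i(F_i(x))` are products of a unit of `O` and an `ℓ`-th power, or the residue field of `O`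
   contains a root of `P_none`, a generator of the field of `χ`.
2. The reciprocity law holds for the local invariants of `(b, χ)` over all number fields `L`.
3. Let `L` be a finite extension of `k`, `v` a finite place, `z` a zero-cycle of `V` over the
   completion.  The local invariant of `A_i` at `z` is the degree of `z` times `v(N a)` times the
   weight of the prime number below `v`.
4. Let `z_v` be zero-cycles of degree `d` over all completions `L_v`.  Only finitely many local
   invariants of `A_i` are not zero and their sum is `d [L : k]` times the invariant of `N(a)`.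
5. Let `a` be obstructed and let `ℓ` not divide `[L : k]`.  If `ℓ` does not divide `d`, then no family
   of zero-cycles of degree `d` over the completions of `L` is orthogonal to all `A_i`; and `ℓ`
   divides the degrees of all zero-cycles of `V` over `L`.
6. If all `F_j` are `x_0 - θ_j` modulo the other variables, then `V` has points over all completions
   of `L`.

For every prime `ℓ` there are admissible pairs with arbitrarily large `p`, `q`; generators `θ_j`
exist; and if `ℓ` does not divide the degree of `k`, then the natural numbers `a` that are not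
obstructed have the density `ℓ^{-(ℓ-1)}`. -/
theorem result :
    (∀ (ℓ p q : ℕ) [Fact ℓ.Prime] [Fact p.Prime] [Fact q.Prime]
        (χ : (ZMod p)ˣ →* Multiplicative (ZMod ℓ)) (ψ : (ZMod q)ˣ →* Multiplicative (ZMod ℓ))
        (θ : Option (ZMod ℓ) → CyclotomicField (p * q) ℚ) (k : Type u) [Field k] [NumberField k]
        (a : k) (σ : Type) (F : Option (ZMod ℓ) → MvPolynomial σ k[X]), Admissible χ ψ →
      Generators χ ψ θ → a ≠ 0 →
      Unramified θ a F ∧
      ∀ (L : Type u) [Field L] [NumberField L] [Algebra k L], Over θ a F L χ ψ) ∧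
    PairsExist ∧
    ∀ (ℓ p q : ℕ) [Fact ℓ.Prime] [Fact p.Prime] [Fact q.Prime]
      (χ : (ZMod p)ˣ →* Multiplicative (ZMod ℓ)) (ψ : (ZMod q)ˣ →* Multiplicative (ZMod ℓ)),
      Admissible χ ψ → (∃ θ, Generators χ ψ θ) ∧
      ∀ (k : Type u) [Field k] [NumberField k], ¬ ℓ ∣ Module.finrank ℚ k → Density χ ψ k := by
  classical
  have hgood : ∀ (ℓ p q : ℕ) [Fact ℓ.Prime] [Fact p.Prime] [Fact q.Prime]
      (χ : (ZMod p)ˣ →* Multiplicative (ZMod ℓ)) (ψ : (ZMod q)ˣ →* Multiplicative (ZMod ℓ)),
      Admissible χ ψ → Pool.Agent.K3h48.MN.Good χ ψ := by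
    intro ℓ p q _ _ _ χ ψ h
    exact ⟨h.ne, h.surjective_left, h.surjective_right,
      Pool.Agent.K3h48.MN.ind_pow_zero χ h.q_power, Pool.Agent.K3h48.MN.ind_pow_zero ψ h.p_power,
      Pool.Agent.K3h48.MN.ind_pow_zero χ h.neg_power_left,
      Pool.Agent.K3h48.MN.ind_pow_zero ψ h.neg_power_right⟩
  have hlib := Pool.Agent.Results.MP_308fa9_nt.SuperellipticBrauerSets.result.{u}
  refine ⟨?_, hlib.2.1, fun ℓ p q _ _ _ χ ψ hadm =>
    ⟨(hlib.2.2 ℓ p q χ ψ hadm).1, fun k _ _ hk =>
      Pool.Agent.K3h48.MN.obs_density (hgood ℓ p q χ ψ hadm) hk⟩⟩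
  intro ℓ p q _ _ _ χ ψ θ k _ _ a σ F hadm hθ ha
  have hℓ : ℓ.Prime := Fact.out
  have hG := hgood ℓ p q χ ψ hadm
  have hθ' : ∀ i, Pool.Agent.K3h48.MN.GenBy χ ψ (Pool.Agent.K3h48.MN.cs i).1
      (Pool.Agent.K3h48.MN.cs i).2 (θ i) := by
    intro i
    cases i with
    | none => exact hθ none
    | some j => exact hθ (some j)
  refine ⟨?_, ?_⟩
  · intro O K _ _ _ _ _ _ _ _ _ z
    by_cases h : ResidueRoot k O (minpoly ℚ (θ none))
    · exact Or.inr h
    · left
      intro i
      rcases unramified (O := O) hG hθ' ha z i none with h1 | h1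
      · exact h1
      · exact absurd h1 h
  intro L _ _ _
  refine ⟨reciprocity hG L, fun v z m hm => loc_cycle hG hθ' ha v z hm,
    fun d z m hm => family_sum hG hθ' ha L d z.1 z.2 hm, ?_, ?_⟩
  · intro hobs hL
    refine ⟨?_, fun z => cycle_dvd hG hθ' hobs L hL z⟩
    rintro d hd ⟨z, h0⟩
    obtain ⟨m, hm, ham⟩ := hobs
    obtain ⟨-, h1⟩ := family_sum hG hθ' ha L d z.1 z.2 hm
    have h4 := h0 m hm
    rw [Family.pairing, h1] at h4
    have h2 : ((Module.finrank k L : ℕ) : ZMod ℓ) ≠ 0 := by
      rwa [Ne, ZMod.natCast_eq_zero_iff]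
    have h3 : ((d : ℤ) : ZMod ℓ) ≠ 0 := by
      rwa [Ne, ZMod.intCast_zmod_eq_zero_iff_dvd]
    exact mul_ne_zero h3 (mul_ne_zero h2 ham) h4
  · intro hF
    exact ⟨fun v => point_finite hG hθ' ha hF L v, fun v => point_real hG hθ' ha hF L v⟩

end Pool.Agent.Results.MP_1ad228_nt.NormProductZeroCycles
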